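import Pool.Agent.MNW.StmtsT
import Pool.Agent.Helper30_MNT.HED

/-!
# Squad MNW, row HHC: resistances of the two ends of an edge
-/

set_option autoImplicit false

namespace Pool.Agent.MNW.H20

open Pool.Agent.MNT

open scoped Classical

/-- HHC -/
theorem hhc : HhcStmt := by
  intro V _ _ _ T G l s r hl hG hR c hc
  have hs : 0 ≤ s c := by
    by_cases h : G c
    · rw [hR.s_grd c h]
    · exact (hR.s_pos c h).le
  have hr : 0 ≤ r c := by
    by_cases h : G (T.par c)
    · rw [hR.r_grd c hc h]
    · exact (hR.r_pos c hc h).le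
  have hlc := hl c hc
  have e1 := (Pool.Agent.MNT.H30.hed V T G l s r hl hG hR c hc).1
  rw [e1, hh]
  have h1 : s c + l c ≠ 0 := by linarith
  have h2 : r c + l c ≠ 0 := by linarith
  have h3 : s c + l c + r c ≠ 0 := by linarith
  constructor
  · field_simp
    ring
  · field_simp
    ring

end Pool.Agent.MNW.H20
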